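import Pool.Agent.Helper4.QRH.HTwoB

/-! Module B8 of project QRH: integers with a large prime factor in every interval of length
`x^(1/2-φ)`. -/

set_option autoImplicit false

open Filter Topology
open scoped Classical

namespace Pool.Agent.Helper4.QRH

open Pool.Agent.Helper10.QRH
open Pool.Agent.Helper44 (primesUpTo)

theorem ev_log_le (c s : ℝ) (hc : 0 < c) (hs : 0 < s) :
    ∀ᶠ x : ℝ in atTop, Real.log x ≤ c * x ^ s := by
  have h := (isLittleO_log_rpow_atTop hs).bound hc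
  filter_upwards [h, eventually_ge_atTop 1] with x hx hx1
  rw [Real.norm_of_nonneg (Real.log_nonneg hx1),
    Real.norm_of_nonneg (Real.rpow_nonneg (by linarith) _)] at hx
  exact hx

theorem ev_rpow_ge (c s : ℝ) (hs : 0 < s) : ∀ᶠ x : ℝ in atTop, c ≤ x ^ s :=
  (tendsto_rpow_atTop hs).eventually_ge_atTop c

theorem ev_log_ge (c : ℝ) : ∀ᶠ x : ℝ in atTop, c ≤ Real.log x :=
  Real.tendsto_log_atTop.eventually_ge_atTop c

theorem hTwo (h1 : PairSieve) (h2 : Rough) (h3 : Squares) : HTwo := by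
  obtain ⟨θ, C, hθ, hC, hPS⟩ := h1
  obtain ⟨K, z0, hK, hR⟩ := h2 (1 / 32) (by norm_num)
  obtain ⟨X1, hSq⟩ := h3
  obtain ⟨c₁, C₁, hc₁, hC₁, hMP⟩ := Pool.Agent.Helper44.mertens_prod
  obtain ⟨C0, hC0, hM1⟩ := Pool.Agent.Helper44.mertens_first
  set t : ℝ := 1 / (400 * (C + 1)) with ht
  have ht0 : 0 < t := by positivity
  have hCt : C * t ≤ 1 / 400 := by
    rw [ht, mul_one_div, div_le_div_iff₀ (by positivity) (by norm_num)]; linarith
  have ht1 : t ≤ 1 / 400 := by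
    rw [ht, div_le_div_iff₀ (by positivity) (by norm_num)]; linarith
  set η : ℝ := min θ (t / (K + 1)) with hη
  have hη0 : 0 < η := lt_min hθ (by positivity)
  have hηθ : η ≤ θ := min_le_left _ _
  have hKη : (K + 1) * η ≤ t := by
    have : η ≤ t / (K + 1) := min_le_right _ _
    rw [le_div_iff₀ (by linarith)] at this
    linarith
  have hηt : η ≤ t := by nlinarith
  obtain ⟨X2, hPS⟩ := hPS η hη0 hηθ
  refine ⟨t, η, t, c₁ / (4 * η), ⟨ht0, by linarith⟩, ⟨hη0, by linarith⟩, ⟨ht0, by linarith⟩,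
    by positivity, ?_⟩
  -- the eventual conditions
  have E : ∀ᶠ x : ℝ in atTop, max z0 128 ≤ x ^ η ∧ Real.log x ≤ c₁ / (128 * η) * x ^ η ∧
      Real.log x ≤ c₁ / (256 * η) * x ^ (0.1 : ℝ) ∧ 68 * C0 ≤ Real.log x ∧
      128 * C ≤ Real.log x ∧ 10 * Real.log 2 ≤ Real.log x ∧ 2 ≤ x ^ (0.01 : ℝ) ∧
      1 ≤ x ^ (0.1 : ℝ) ∧ 1 ≤ x := by
    refine (ev_rpow_ge _ _ hη0).and ((ev_log_le _ _ (by positivity) hη0).and
      ((ev_log_le _ _ (by positivity) (by norm_num)).and ((ev_log_ge _).and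
      ((ev_log_ge _).and ((ev_log_ge _).and ((ev_rpow_ge _ _ (by norm_num)).and
      ((ev_rpow_ge _ _ (by norm_num)).and (eventually_ge_atTop 1))))))))
  obtain ⟨X3, hX3⟩ := eventually_atTop.mp (tendsto_natCast_atTop_atTop.eventually E)
  refine ⟨max (max X1 X2) (max X3 1), ?_⟩
  intro x h hx hh1 hh2
  have hxX1 : X1 ≤ x := le_trans (le_trans (le_max_left _ _) (le_max_left _ _)) hx
  have hxX2 : X2 ≤ x := le_trans (le_trans (le_max_right _ _) (le_max_left _ _)) hx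
  have hxX3 : X3 ≤ x := le_trans (le_trans (le_max_left _ _) (le_max_right _ _)) hx
  have hx1n : 1 ≤ x := le_trans (le_trans (le_max_right _ _) (le_max_right _ _)) hx
  obtain ⟨e1, e2, e3, e4, e5, e6, e7, e8, hx1⟩ := hX3 x hxX3
  set y : ℝ := (x : ℝ) with hy
  have hy0 : 0 < y := by linarith
  set Lx := Real.log y with hLx
  have hlog2 : 0.69 ≤ Real.log 2 := by have := Real.log_two_gt_d9; linarith
  have hLx0 : 0 < Lx := by linarith
  set z : ℝ := y ^ η with hz
  have hz128 : 128 ≤ z := le_trans (le_max_right _ _) e1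
  have hzz0 : z0 ≤ z := le_trans (le_max_left _ _) e1
  have hz0 : 0 < z := by linarith
  have hlogz : Real.log z = η * Lx := by rw [hz, Real.log_rpow hy0]
  set W : ℝ := ∏ r ∈ primesUpTo z, (1 - (1 : ℝ) / r) with hWdef
  have hWge : c₁ / (η * Lx) ≤ W := by rw [← hlogz]; exact (hMP z (by linarith)).1
  have hW0 : 0 < W := lt_of_lt_of_le (by positivity) hWge
  have hhpos : 0 < (h : ℝ) := lt_of_lt_of_le (Real.rpow_pos_of_pos hy0 _) hh1
  have hh1n : 1 ≤ h := by exact_mod_cast hhpos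
  have hh49 : y ^ (0.49 : ℝ) ≤ h :=
    le_trans (Real.rpow_le_rpow_of_exponent_le hx1 (by linarith)) hh1
  have hlogh : Real.log h ≤ Lx / 2 := by
    have := Real.log_le_log hhpos hh2
    rw [Real.log_rpow hy0] at this
    linarith
  have hhy : (h : ℝ) ≤ y := by
    refine hh2.trans ?_
    calc y ^ (1 / 2 : ℝ) ≤ y ^ (1 : ℝ) := Real.rpow_le_rpow_of_exponent_le hx1 (by norm_num)
      _ = y := Real.rpow_one _
  -- the power z^(K+1)
  have hzpow : z ^ (K + 1) = y ^ ((K + 1) * η) := by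
    rw [hz, ← Real.rpow_mul hy0.le, mul_comm]
  have hzpow0 : 0 < z ^ (K + 1) := Real.rpow_pos_of_pos hz0 _
  set y1 : ℝ := h / z ^ (K + 1) with hy1
  have hy1ge : y ^ (1 / 2 - t - (K + 1) * η) ≤ y1 := by
    rw [hy1, le_div_iff₀ hzpow0, hzpow, ← Real.rpow_add hy0]
    refine le_trans (le_of_eq ?_) hh1
    congr 1; ring
  have hy1ge' : y ^ (0.49 : ℝ) ≤ y1 :=
    le_trans (Real.rpow_le_rpow_of_exponent_le hx1 (by linarith)) hy1ge
  have h48 : 2 * y ^ (0.48 : ℝ) ≤ y ^ (0.49 : ℝ) := by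
    have : y ^ (0.49 : ℝ) = y ^ (0.01 : ℝ) * y ^ (0.48 : ℝ) := by
      rw [← Real.rpow_add hy0]; norm_num
    rw [this]
    have : 0 < y ^ (0.48 : ℝ) := Real.rpow_pos_of_pos hy0 _
    nlinarith
  have h481 : 1 ≤ y ^ (0.48 : ℝ) := Real.one_le_rpow hx1 (by norm_num)
  have hy12 : 2 ≤ y1 := by linarith
  set D : ℕ := ⌊y1⌋₊ with hD
  have hDle : (D : ℝ) ≤ y1 := Nat.floor_le (by linarith)
  have hDge : y1 / 2 ≤ (D : ℝ) := by
    have := Nat.lt_floor_add_one y1
    rw [← hD] at this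
    linarith
  have hD48 : y ^ (0.48 : ℝ) ≤ D := by linarith
  have hD1 : 1 ≤ D := by
    have : (1 : ℝ) ≤ D := by linarith
    exact_mod_cast this
  have hD0 : (0 : ℝ) < D := by exact_mod_cast hD1
  have hzK1 : 1 ≤ z ^ (K + 1) := Real.one_le_rpow (by linarith) (by linarith)
  have hDh : (D : ℝ) ≤ h := by
    refine hDle.trans ?_
    rw [hy1, div_le_iff₀ hzpow0]
    nlinarith
  -- the number of dyadic intervals
  set T : ℝ := y ^ (1 / 2 + t) with hT
  have hT0 : 0 < T := Real.rpow_pos_of_pos hy0 _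
  have hTD : 1 ≤ T / D := by
    rw [one_le_div hD0]
    refine hDh.trans (hh2.trans ?_)
    exact Real.rpow_le_rpow_of_exponent_le hx1 (by linarith)
  set I : ℕ := ⌈Real.logb 2 (T / D)⌉₊ with hI
  have hlogb : Real.logb 2 (T / D) = (Real.log T - Real.log D) / Real.log 2 := by
    rw [Real.logb, Real.log_div hT0.ne' hD0.ne']
  have hTI : T ≤ 2 ^ I * D := by
    have h5 : Real.logb 2 (T / D) ≤ I := Nat.le_ceil _
    have h6 : T / D ≤ 2 ^ (I : ℝ) := by
      rw [Real.logb_le_iff_le_rpow (by norm_num) (by positivity)] at h5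
      exact h5
    rw [Real.rpow_natCast, div_le_iff₀ hD0] at h6
    exact h6
  have hIlt : ∀ i < I, ((2 ^ i * D : ℕ) : ℝ) ≤ y ^ (0.52 : ℝ) := by
    intro i hi
    rw [hI, Nat.lt_ceil, Real.lt_logb_iff_rpow_lt (by norm_num) (by positivity),
      Real.rpow_natCast, lt_div_iff₀ hD0] at hi
    push_cast
    refine hi.le.trans ?_
    exact Real.rpow_le_rpow_of_exponent_le hx1 (by linarith)
  have hlogD : (1 / 2 - 2 * t) * Lx - Real.log 2 ≤ Real.log D := by
    have h5 : Real.log (y1 / 2) ≤ Real.log D := Real.log_le_log (by linarith) hDge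
    rw [Real.log_div (by linarith) (by norm_num)] at h5
    have h6 : Real.log (y ^ (1 / 2 - t - (K + 1) * η)) ≤ Real.log y1 :=
      Real.log_le_log (Real.rpow_pos_of_pos hy0 _) hy1ge
    rw [Real.log_rpow hy0] at h6
    have h7 : (1 / 2 - 2 * t) * Lx ≤ (1 / 2 - t - (K + 1) * η) * Lx := by
      apply mul_le_mul_of_nonneg_right _ hLx0.le
      linarith
    linarith
  have hIle : (I : ℝ) ≤ 3 * t * Lx / Real.log 2 + 2 := by
    have h5 : (I : ℝ) < Real.logb 2 (T / D) + 1 := by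
      apply Nat.ceil_lt_add_one
      exact Real.logb_nonneg (by norm_num) hTD
    have h6 : Real.logb 2 (T / D) ≤ 3 * t * Lx / Real.log 2 + 1 := by
      rw [hlogb, div_le_iff₀ (by linarith)]
      have h7 : (3 * t * Lx / Real.log 2 + 1) * Real.log 2 = 3 * t * Lx + Real.log 2 := by
        field_simp
      rw [h7, hT, Real.log_rpow hy0]
      linarith
    linarith
  have hCI : C * I ≤ Lx / 32 := by
    have h5 : C * (I : ℝ) ≤ C * (3 * t * Lx / Real.log 2 + 2) :=
      mul_le_mul_of_nonneg_left hIle hC.le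
    have h6 : C * (3 * t * Lx / Real.log 2) ≤ Lx / 64 := by
      rw [mul_div_assoc', div_le_iff₀ (by linarith)]
      have : C * (3 * t * Lx) ≤ 3 / 400 * Lx := by
        have := mul_le_mul_of_nonneg_right hCt hLx0.le
        linarith
      nlinarith
    linarith
  have hlogI : ∀ i < I, Real.log (2 * (2 ^ i * D : ℕ)) ≤ Lx := by
    intro i hi
    have h5 := hIlt i hi
    have h6 : (0 : ℝ) < ((2 ^ i * D : ℕ) : ℝ) := by
      have : 0 < 2 ^ i * D := by positivity
      exact_mod_cast this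
    have h7 : (2 : ℝ) * ((2 ^ i * D : ℕ) : ℝ) ≤ y := by
      have h8 : y = y ^ (0.47 : ℝ) * (y ^ (0.01 : ℝ) * y ^ (0.52 : ℝ)) := by
        rw [← Real.rpow_add hy0, ← Real.rpow_add hy0]; norm_num
      have h9 : 1 ≤ y ^ (0.47 : ℝ) := Real.one_le_rpow hx1 (by norm_num)
      have h10 : 0 < y ^ (0.52 : ℝ) := Real.rpow_pos_of_pos hy0 _
      have h11 : 2 * y ^ (0.52 : ℝ) ≤ y ^ (0.01 : ℝ) * y ^ (0.52 : ℝ) := by nlinarith
      have h13 : 0 < y ^ (0.01 : ℝ) * y ^ (0.52 : ℝ) :=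
        mul_pos (Real.rpow_pos_of_pos hy0 _) h10
      have h12 : 2 * y ^ (0.52 : ℝ) ≤ y :=
        h11.trans ((le_mul_of_one_le_left h13.le h9).trans (le_of_eq h8.symm))
      linarith
    exact Real.log_le_log (by positivity) h7
  have hpair : ∀ i < I, ((((Finset.Ioc (2 ^ i * D) (2 * (2 ^ i * D))) ×ˢ
        (Finset.range (x + h))).filter (fun y : ℕ × ℕ => y.1.Prime ∧
          (∀ r : ℕ, r.Prime → r ∣ y.2 → z < r) ∧
          x ≤ y.1 * y.2 ∧ y.1 * y.2 < x + h)).card : ℝ) ≤ C * h / Lx * W := by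
    intro i hi
    refine hPS x h (2 ^ i * D) hxX2 hh49 hh2 ?_ (hIlt i hi)
    refine hD48.trans ?_
    have : D ≤ 2 ^ i * D := Nat.le_mul_of_pos_left _ (by positivity)
    exact_mod_cast this
  have hlow : (1 - 1 / 32) * h * W ≤
      ((((Finset.Ico x (x + h)).filter (fun n => ∀ r : ℕ, r.Prime → r ∣ n → z < r)).card : ℕ) : ℝ) := by
    refine (hR z hzz0 x h ?_).1
    have h5 : z ^ K ≤ z ^ (K + 1) := Real.rpow_le_rpow_of_exponent_le (by linarith) (by linarith)
    have h6 : z ^ (K + 1) ≤ h := by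
      have : 1 ≤ (h : ℝ) / z ^ (K + 1) := by rw [← hy1]; linarith
      rwa [one_le_div hzpow0] at this
    linarith
  have hsq : ((((Finset.Ico x (x + h)).filter
        (fun n => ∃ p : ℕ, p.Prime ∧ z < p ∧ p ^ 2 ∣ n)).card : ℕ) : ℝ) ≤ 1 / 32 * h * W := by
    refine (hSq x h hxX1 hh2 z (by linarith)).trans ?_
    have h5 : 2 * (h : ℝ) / z ≤ 1 / 64 * h * W := by
      have h6 : 2 / z ≤ 1 / 64 * (c₁ / (η * Lx)) := by
        rw [div_le_iff₀ hz0]
        have h7 : 1 / 64 * (c₁ / (η * Lx)) * z = (c₁ / (128 * η) * z) * 2 / Lx := by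
          field_simp; norm_num
        rw [h7, le_div_iff₀ hLx0]
        linarith
      calc 2 * (h : ℝ) / z = h * (2 / z) := by ring
        _ ≤ h * (1 / 64 * (c₁ / (η * Lx))) := by gcongr
        _ ≤ h * (1 / 64 * W) := by gcongr
        _ = _ := by ring
    have h6 : 4 * y ^ (1 / 3 : ℝ) ≤ 1 / 64 * h * W := by
      have h7 : y ^ (1 / 3 : ℝ) * y ^ (0.1 : ℝ) ≤ h := by
        rw [← Real.rpow_add hy0]
        refine le_trans ?_ hh49
        exact Real.rpow_le_rpow_of_exponent_le hx1 (by norm_num)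
      have h8 : 4 * y ^ (1 / 3 : ℝ) * (64 * (η * Lx)) ≤ c₁ * h := by
        have h9 : 256 * η * Lx ≤ c₁ * y ^ (0.1 : ℝ) := by
          have h10 := mul_le_mul_of_nonneg_left e3 (show 0 ≤ 256 * η by positivity)
          have h11 : 256 * η * (c₁ / (256 * η) * y ^ (0.1 : ℝ)) = c₁ * y ^ (0.1 : ℝ) := by
            field_simp
          rw [h11] at h10
          exact h10
        have h10 : 0 ≤ y ^ (1 / 3 : ℝ) := (Real.rpow_pos_of_pos hy0 _).le
        calc 4 * y ^ (1 / 3 : ℝ) * (64 * (η * Lx)) = y ^ (1 / 3 : ℝ) * (256 * η * Lx) := by ring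
          _ ≤ y ^ (1 / 3 : ℝ) * (c₁ * y ^ (0.1 : ℝ)) := by gcongr
          _ = c₁ * (y ^ (1 / 3 : ℝ) * y ^ (0.1 : ℝ)) := by ring
          _ ≤ c₁ * h := by gcongr
      have h9 : 4 * y ^ (1 / 3 : ℝ) ≤ 1 / 64 * h * (c₁ / (η * Lx)) := by
        have h10 : 1 / 64 * (h : ℝ) * (c₁ / (η * Lx)) = c₁ * h / (64 * (η * Lx)) := by
          field_simp
        rw [h10, le_div_iff₀ (by positivity)]
        exact h8
      refine h9.trans ?_
      gcongr
    linarith
  have hup : ∀ a l : ℕ, z ^ K ≤ (l : ℝ) → ((((Finset.Ico a (a + l)).filter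
        (fun n => ∀ r : ℕ, r.Prime → r ∣ n → z < r)).card : ℕ) : ℝ) ≤ (1 + 1 / 32) * l * W :=
    fun a l hl => (hR z hzz0 a l hl).2
  have hmer : ∑ p ∈ (Finset.Ioc 0 D).filter Nat.Prime, Real.log p / p ≤ Real.log D + C0 := by
    have := hM1 D hD1
    rw [abs_le] at this
    linarith [this.2]
  have hM : Real.log ((x + h : ℕ) : ℝ) ≤ 11 / 10 * Lx := by
    have h5 : ((x + h : ℕ) : ℝ) ≤ 2 * y := by push_cast; linarith
    have h6 : (0 : ℝ) < ((x + h : ℕ) : ℝ) := by push_cast; linarith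
    have h7 := Real.log_le_log h6 h5
    rw [Real.log_mul (by norm_num) hy0.ne'] at h7
    linarith
  have key := fixed_bound x h z W K C C0 T Lx D I hx1n hh1n hW0 hz128 hK hC hLx hLx0 hlow hsq
    hup hDle hD1 hmer hlogh hpair hlogI hCI hTI hM (by linarith)
  have key2 := good_shape z T x h hx1n
  refine le_trans ?_ (key.trans key2)
  have h5 : c₁ / (4 * η) * h / Lx = h * (c₁ / (η * Lx)) / 4 := by field_simp
  rw [h5]
  gcongr

end Pool.Agent.Helper4.QRH
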