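import Pool.Agent.Helper10.QRH.StB

/-! Module B7 of project QRH: few integers of a short interval are divisible by the square of a
large prime. -/

set_option autoImplicit false

open Filter Topology
open scoped Classical

namespace Pool.Agent.Helper4.QRH

open Pool.Agent.Helper10.QRH

theorem card_dvd_Ico_le (x h d : ℕ) (hd : 0 < d) :
    (((Finset.Ico x (x + h)).filter (fun n => d ∣ n)).card : ℝ) ≤ (h : ℝ) / d + 1 := by
  have e1 : (Finset.Ico x (x + h)).filter (fun n => d ∣ n)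
      = (Finset.Ico x (x + h)).filter (fun n => n ≡ 0 [MOD d]) := by
    apply Finset.filter_congr
    intro n _
    rw [Nat.modEq_zero_iff_dvd]
  have h1 := Nat.Ico_filter_modEq_card x (x + h) hd 0
  rw [e1]
  have hd' : (0 : ℚ) < d := by exact_mod_cast hd
  have h2 : (max (⌈(((x + h : ℕ) : ℚ) - (0 : ℕ)) / (d : ℚ)⌉ - ⌈((x : ℚ) - (0 : ℕ)) / (d : ℚ)⌉) 0 : ℤ)
      ≤ (h : ℚ) / d + 1 := by
    have a1 := Int.ceil_lt_add_one ((((x + h : ℕ) : ℚ) - (0 : ℕ)) / (d : ℚ))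
    have a2 := Int.le_ceil (((x : ℚ) - (0 : ℕ)) / (d : ℚ))
    have e2 : (((x + h : ℕ) : ℚ) - (0 : ℕ)) / (d : ℚ) = ((x : ℚ) - (0 : ℕ)) / (d : ℚ) + h / d := by
      push_cast; ring
    rw [e2] at a1 ⊢
    push_cast
    apply max_le
    · linarith
    · positivity
  rw [← h1] at h2
  have h3 : ((((((Finset.Ico x (x + h)).filter (fun n => n ≡ 0 [MOD d])).card : ℤ) : ℚ)) : ℝ)
      ≤ (((h : ℚ) / d + 1 : ℚ) : ℝ) := by exact_mod_cast h2
  push_cast at h3
  exact h3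

theorem sum_inv_sq_gt (z : ℝ) (hz : 1 ≤ z) (N : ℕ) :
    ∑ p ∈ (Finset.range (N + 1)).filter (fun p : ℕ => z < (p : ℝ)), 1 / ((p : ℝ) ^ 2) ≤ 2 / z := by
  have hf : 1 ≤ ⌊z⌋₊ := Nat.le_floor (by simpa using hz)
  have hsub : (Finset.range (N + 1)).filter (fun p : ℕ => z < (p : ℝ)) ⊆
      Finset.Ioc ⌊z⌋₊ (max ⌊z⌋₊ N) := by
    intro p hp
    rw [Finset.mem_filter, Finset.mem_range] at hp
    rw [Finset.mem_Ioc]
    refine ⟨(Nat.floor_lt (by linarith)).mpr hp.2, le_max_of_le_right (by omega)⟩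
  have h1 := Finset.sum_le_sum_of_subset_of_nonneg (f := fun p : ℕ => (((p : ℝ) ^ 2)⁻¹)) hsub
    (fun i _ _ => by positivity)
  have h2 := sum_Ioc_inv_sq_le_sub (α := ℝ) (k := ⌊z⌋₊) (n := max ⌊z⌋₊ N) (by omega)
    (le_max_left _ _)
  have h3 : (0 : ℝ) ≤ ((max ⌊z⌋₊ N : ℕ) : ℝ)⁻¹ := by positivity
  have hf' : (1 : ℝ) ≤ (⌊z⌋₊ : ℝ) := by exact_mod_cast hf
  have h4 : ((⌊z⌋₊ : ℝ))⁻¹ ≤ 2 / z := by
    rw [inv_eq_one_div, div_le_div_iff₀ (by linarith) (by linarith)]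
    have := Nat.lt_floor_add_one z
    linarith
  have e : ∑ p ∈ (Finset.range (N + 1)).filter (fun p : ℕ => z < (p : ℝ)), 1 / ((p : ℝ) ^ 2)
      = ∑ p ∈ (Finset.range (N + 1)).filter (fun p : ℕ => z < (p : ℝ)), (((p : ℝ) ^ 2)⁻¹) := by
    apply Finset.sum_congr rfl; intro p _; rw [one_div]
  rw [e]
  push_cast at h1 h2 h3 ⊢
  linarith

/-- at most one multiple `m p²` in an interval of length `h ≤ √x` -/
theorem sq_unique (x h m p q : ℕ) (hx : 1 ≤ x) (hh : (h : ℝ) ≤ (x : ℝ) ^ (1 / 2 : ℝ)) (hm : 1 ≤ m)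
    (h1 : x ≤ m * p ^ 2) (h2 : m * q ^ 2 < x + h) (hpq : p < q) : False := by
  have hx0 : (0 : ℝ) < x := by exact_mod_cast hx
  have hh2 : (h : ℝ) ^ 2 ≤ x := by
    have : ((x : ℝ) ^ (1 / 2 : ℝ)) ^ 2 = x := by
      rw [← Real.rpow_natCast, ← Real.rpow_mul hx0.le]; norm_num
    calc (h : ℝ) ^ 2 ≤ ((x : ℝ) ^ (1 / 2 : ℝ)) ^ 2 := by gcongr
      _ = (x : ℝ) := this
  have hh3 : h ^ 2 ≤ x := by exact_mod_cast hh2
  have h3 : m * p ^ 2 + 2 * (m * p) < x + h := by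
    have : m * (p + 1) ^ 2 ≤ m * q ^ 2 := by gcongr; omega
    nlinarith
  have h4 : 2 * (m * p) < h := by omega
  have h5 : (2 * (m * p)) ^ 2 < h ^ 2 := by
    apply Nat.pow_lt_pow_left h4 (by norm_num)
  have h6 : (2 * (m * p)) ^ 2 = 4 * m * (m * p ^ 2) := by ring
  have h7 : x ≤ 4 * m * (m * p ^ 2) := by nlinarith
  omega

theorem squares : Squares := by
  refine ⟨1, ?_⟩
  intro x h hx hh z hz
  have hx0 : (0 : ℝ) < x := by exact_mod_cast hx
  have hx1 : (1 : ℝ) ≤ x := by exact_mod_cast hx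
  set y : ℝ := (x : ℝ) ^ (1 / 3 : ℝ) with hy
  have hy1 : 1 ≤ y := Real.one_le_rpow hx1 (by norm_num)
  have hy3 : y ^ 3 = x := by
    rw [hy, ← Real.rpow_natCast, ← Real.rpow_mul hx0.le]; norm_num
  have hhx : (h : ℝ) ≤ x := by
    refine hh.trans ?_
    calc (x : ℝ) ^ (1 / 2 : ℝ) ≤ (x : ℝ) ^ (1 : ℝ) :=
          Real.rpow_le_rpow_of_exponent_le hx1 (by norm_num)
      _ = x := Real.rpow_one _
  set N := ⌊y⌋₊ with hN
  set A := (Finset.Ico x (x + h)).filter (fun n => ∃ p : ℕ, p.Prime ∧ z < p ∧ p ^ 2 ∣ n) with hA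
  set P := (Finset.range (N + 1)).filter (fun p : ℕ => z < (p : ℝ)) with hP
  set A1 := P.biUnion (fun p => (Finset.Ico x (x + h)).filter (fun n => p ^ 2 ∣ n)) with hA1
  set A2 := (Finset.Ico x (x + h)).filter (fun n => ∃ p : ℕ, y < (p : ℝ) ∧ p ^ 2 ∣ n) with hA2
  have hsub : A ⊆ A1 ∪ A2 := by
    intro n hn
    rw [hA, Finset.mem_filter] at hn
    obtain ⟨hn1, p, hp, hzp, hpn⟩ := hn
    rw [Finset.mem_union]
    by_cases hpy : (p : ℝ) ≤ y
    · left
      rw [hA1, Finset.mem_biUnion]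
      refine ⟨p, ?_, ?_⟩
      · rw [hP, Finset.mem_filter, Finset.mem_range]
        exact ⟨Nat.lt_succ_of_le (Nat.le_floor hpy), hzp⟩
      · rw [Finset.mem_filter]; exact ⟨hn1, hpn⟩
    · right
      rw [hA2, Finset.mem_filter]
      exact ⟨hn1, p, not_le.mp hpy, hpn⟩
  have hc1 : (A1.card : ℝ) ≤ 2 * h / z + y + 1 := by
    have h1 : (A1.card : ℝ) ≤ ∑ p ∈ P, ((((Finset.Ico x (x + h)).filter (fun n => p ^ 2 ∣ n)).card : ℕ) : ℝ) := by
      exact_mod_cast Finset.card_biUnion_le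
    have h2 : ∑ p ∈ P, ((((Finset.Ico x (x + h)).filter (fun n => p ^ 2 ∣ n)).card : ℕ) : ℝ)
        ≤ ∑ p ∈ P, ((h : ℝ) * (1 / (p : ℝ) ^ 2) + 1) := by
      apply Finset.sum_le_sum
      intro p hp
      have hp0 : 0 < p := by
        rw [hP, Finset.mem_filter] at hp
        have : (0 : ℝ) < p := by linarith [hp.2]
        exact_mod_cast this
      have := card_dvd_Ico_le x h (p ^ 2) (by positivity)
      push_cast at this
      rw [mul_one_div]
      exact this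
    rw [Finset.sum_add_distrib, ← Finset.mul_sum, Finset.sum_const, nsmul_eq_mul, mul_one] at h2
    have h3 := mul_le_mul_of_nonneg_left (sum_inv_sq_gt z hz N) (Nat.cast_nonneg (α := ℝ) h)
    have h4 : (P.card : ℝ) ≤ y + 1 := by
      have h5 : P.card ≤ N + 1 := by
        rw [hP]
        exact (Finset.card_filter_le _ _).trans (by simp)
      have h6 : ((N + 1 : ℕ) : ℝ) ≤ y + 1 := by
        push_cast
        have := Nat.floor_le (show 0 ≤ y by linarith)
        linarith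
      exact le_trans (by exact_mod_cast h5) h6
    have e : (h : ℝ) * (2 / z) = 2 * h / z := by ring
    rw [e] at h3
    linarith
  have hc2 : (A2.card : ℝ) ≤ 2 * y := by
    have hex : ∀ n : ℕ, ∃ p : ℕ, n ∈ A2 → y < (p : ℝ) ∧ p ^ 2 ∣ n := by
      intro n
      by_cases hn : n ∈ A2
      · rw [hA2, Finset.mem_filter] at hn
        obtain ⟨p, hp⟩ := hn.2
        exact ⟨p, fun _ => hp⟩
      · exact ⟨0, fun h => absurd h hn⟩
    choose p hp using hex
    have hprop : ∀ n ∈ A2, 1 ≤ n / (p n) ^ 2 ∧ n = n / (p n) ^ 2 * (p n) ^ 2 ∧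
        (((n / (p n) ^ 2 : ℕ)) : ℝ) ≤ 2 * y := by
      intro n hn
      obtain ⟨h1, h2⟩ := hp n hn
      have hn' := hn
      rw [hA2, Finset.mem_filter, Finset.mem_Ico] at hn'
      have hn0 : 0 < n := by omega
      have hp0 : 0 < p n := by
        have : (0 : ℝ) < p n := by linarith
        exact_mod_cast this
      have e1 : n / (p n) ^ 2 * (p n) ^ 2 = n := Nat.div_mul_cancel h2
      refine ⟨Nat.div_pos (Nat.le_of_dvd hn0 h2) (by positivity), e1.symm, ?_⟩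
      have e2 : (((n / (p n) ^ 2 : ℕ)) : ℝ) * (p n : ℝ) ^ 2 = n := by exact_mod_cast e1
      have h3 : (n : ℝ) ≤ 2 * x := by
        have : (n : ℝ) < x + h := by exact_mod_cast hn'.1.2
        linarith
      have h4 : (((n / (p n) ^ 2 : ℕ)) : ℝ) * y ^ 2 ≤ 2 * y * y ^ 2 := by
        calc (((n / (p n) ^ 2 : ℕ)) : ℝ) * y ^ 2 ≤ (((n / (p n) ^ 2 : ℕ)) : ℝ) * (p n : ℝ) ^ 2 := by
              gcongr
          _ = (n : ℝ) := e2
          _ ≤ 2 * (x : ℝ) := h3
          _ = 2 * y * y ^ 2 := by rw [← hy3]; ring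
      exact le_of_mul_le_mul_right h4 (by positivity)
    have hcard : A2.card ≤ (Finset.Icc 1 ⌊2 * y⌋₊).card := by
      apply Finset.card_le_card_of_injOn (fun n => n / (p n) ^ 2)
      · intro n hn
        obtain ⟨h1, -, h3⟩ := hprop n hn
        simp only [Finset.coe_Icc, Set.mem_Icc]
        exact ⟨h1, Nat.le_floor h3⟩
      · intro n hn n' hn' hnn
        obtain ⟨a1, a2, -⟩ := hprop n hn
        obtain ⟨b1, b2, -⟩ := hprop n' hn'
        simp only at hnn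
        rw [← hnn] at b2 b1
        have c1 : x ≤ n ∧ n < x + h := by
          have := hn
          rw [Finset.mem_coe, hA2, Finset.mem_filter, Finset.mem_Ico] at this
          exact this.1
        have c2 : x ≤ n' ∧ n' < x + h := by
          have := hn'
          rw [Finset.mem_coe, hA2, Finset.mem_filter, Finset.mem_Ico] at this
          exact this.1
        rcases lt_trichotomy (p n) (p n') with hlt | heq | hgt
        · exact (sq_unique x h _ _ _ hx hh a1 (a2 ▸ c1.1) (b2 ▸ c2.2) hlt).elim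
        · rw [a2, b2, heq]
        · exact (sq_unique x h _ _ _ hx hh a1 (b2 ▸ c2.1) (a2 ▸ c1.2) hgt).elim
    rw [Nat.card_Icc] at hcard
    have h5 : ((⌊2 * y⌋₊ : ℕ) : ℝ) ≤ 2 * y := Nat.floor_le (by linarith)
    have h6 : (A2.card : ℝ) ≤ (⌊2 * y⌋₊ : ℕ) := by
      exact_mod_cast (by omega : A2.card ≤ ⌊2 * y⌋₊)
    linarith
  have hc : (A.card : ℝ) ≤ A1.card + A2.card := by
    exact_mod_cast (Finset.card_le_card hsub).trans (Finset.card_union_le _ _)
  linarith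

end Pool.Agent.Helper4.QRH
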