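import Pool.Agent.Helper10.QRH.StB

/-! Module B8 of project QRH, part 1: Chebyshev's argument in a short interval, combinatorial part. -/

set_option autoImplicit false

open Filter Topology
open scoped Classical

namespace Pool.Agent.Helper4.QRH

open Pool.Agent.Helper10.QRH
open Pool.Agent.Helper44 (primesUpTo)

/-- all prime factors are `> z` -/
def Rgh (z : ℝ) (n : ℕ) : Prop := ∀ r : ℕ, r.Prime → r ∣ n → z < r

theorem Rgh.div {z : ℝ} {n p : ℕ} (h : Rgh z n) (hp : p ∣ n) : Rgh z (n / p) := by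
  intro r hr hrn
  exact h r hr (hrn.trans (Nat.div_dvd_of_dvd hp))

noncomputable def AA (z : ℝ) (x h : ℕ) : Finset ℕ :=
  (Finset.Ico x (x + h)).filter (fun n => Rgh z n ∧ ¬ ∃ p : ℕ, p.Prime ∧ z < p ∧ p ^ 2 ∣ n)

theorem mem_AA {z : ℝ} {x h n : ℕ} : n ∈ AA z x h ↔
    (x ≤ n ∧ n < x + h) ∧ Rgh z n ∧ ¬ ∃ p : ℕ, p.Prime ∧ z < p ∧ p ^ 2 ∣ n := by
  rw [AA, Finset.mem_filter, Finset.mem_Ico]

theorem AA_squarefree {z : ℝ} {x h n : ℕ} (hn : n ∈ AA z x h) : Squarefree n := by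
  rw [Nat.squarefree_iff_prime_squarefree]
  intro p hp hpp
  obtain ⟨-, h1, h2⟩ := mem_AA.mp hn
  exact h2 ⟨p, hp, h1 p hp (dvd_trans (Dvd.intro _ rfl) hpp), by rwa [sq]⟩

theorem log_eq_sum (n : ℕ) (hn : Squarefree n) :
    Real.log n = ∑ p ∈ n.primeFactors, Real.log p := by
  conv_lhs => rw [← Nat.prod_primeFactors_of_squarefree hn]
  push_cast
  rw [Real.log_prod]
  intro p hp
  have := (Nat.prime_of_mem_primeFactors hp).pos
  exact_mod_cast this.ne'

noncomputable def FF (n : ℕ) (S : Finset ℕ) : ℝ :=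
  ∑ p ∈ S, if p.Prime ∧ p ∣ n then Real.log p else 0

theorem FF_term_nonneg (n p : ℕ) : (0 : ℝ) ≤ if p.Prime ∧ p ∣ n then Real.log p else 0 := by
  split_ifs with h
  · exact Real.log_natCast_nonneg p
  · exact le_rfl

theorem FF_nonneg (n : ℕ) (S : Finset ℕ) : 0 ≤ FF n S :=
  Finset.sum_nonneg fun p _ => FF_term_nonneg n p

theorem FF_dyadic (n D : ℕ) (I : ℕ) :
    FF n (Finset.Ioc 0 (2 ^ I * D)) = FF n (Finset.Ioc 0 D)
      + ∑ i ∈ Finset.range I, FF n (Finset.Ioc (2 ^ i * D) (2 * (2 ^ i * D))) := by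
  induction I with
  | zero => simp
  | succ I ih =>
    rw [Finset.sum_range_succ, ← add_assoc, ← ih]
    unfold FF
    rw [Finset.sum_Ioc_consecutive _ (Nat.zero_le _) (by omega)]
    congr 2
    ring

theorem log_le_FF (z : ℝ) (x h n D I : ℕ) (T : ℝ) (hx : 1 ≤ x) (hT : T ≤ 2 ^ I * D)
    (hn : n ∈ AA z x h) :
    Real.log n ≤ FF n (Finset.Ioc 0 D)
      + ∑ i ∈ Finset.range I, FF n (Finset.Ioc (2 ^ i * D) (2 * (2 ^ i * D)))
      + (if ∃ q : ℕ, q.Prime ∧ T ≤ q ∧ q ∣ n then Real.log n else 0) := by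
  rw [← FF_dyadic]
  split_ifs with hq
  · have := FF_nonneg n (Finset.Ioc 0 (2 ^ I * D)); linarith
  · rw [add_zero, log_eq_sum n (AA_squarefree hn), FF]
    have hn0 : n ≠ 0 := by have := (mem_AA.mp hn).1.1; omega
    have hsub : n.primeFactors ⊆ Finset.Ioc 0 (2 ^ I * D) := by
      intro p hp
      have hpp := Nat.prime_of_mem_primeFactors hp
      have hpn := Nat.dvd_of_mem_primeFactors hp
      rw [Finset.mem_Ioc]
      refine ⟨hpp.pos, ?_⟩
      have h1 : (p : ℝ) < T := by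
        by_contra hcon
        exact hq ⟨p, hpp, not_lt.mp hcon, hpn⟩
      have h2 : (p : ℝ) ≤ ((2 ^ I * D : ℕ) : ℝ) := by push_cast; linarith
      exact_mod_cast h2
    refine le_trans (le_of_eq ?_) (Finset.sum_le_sum_of_subset_of_nonneg hsub
      (fun p _ _ => FF_term_nonneg n p))
    apply Finset.sum_congr rfl
    intro p hp
    rw [if_pos ⟨Nat.prime_of_mem_primeFactors hp, Nat.dvd_of_mem_primeFactors hp⟩]

/-- primes up to `D` -/
theorem sum_FF_small (A : Finset ℕ) (D : ℕ) (β : ℝ)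
    (hb : ∀ p : ℕ, p.Prime → p ≤ D → (((A.filter (fun n => p ∣ n)).card : ℕ) : ℝ) ≤ β / p) :
    ∑ n ∈ A, FF n (Finset.Ioc 0 D) ≤ β * ∑ p ∈ (Finset.Ioc 0 D).filter Nat.Prime, Real.log p / p := by
  unfold FF
  rw [Finset.sum_comm, Finset.mul_sum, Finset.sum_filter]
  apply Finset.sum_le_sum
  intro p hp
  rw [Finset.mem_Ioc] at hp
  by_cases hpp : p.Prime
  · simp only [hpp, true_and, if_true]
    rw [← Finset.sum_filter, Finset.sum_const, nsmul_eq_mul]
    have h1 := mul_le_mul_of_nonneg_right (hb p hpp hp.2) (Real.log_natCast_nonneg p)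
    calc _ ≤ _ := h1
      _ = _ := by ring
  · simp [hpp]

/-- primes in a dyadic interval -/
theorem sum_FF_dyadic (z : ℝ) (x h D : ℕ) (hx : 1 ≤ x) :
    ∑ n ∈ AA z x h, FF n (Finset.Ioc D (2 * D)) ≤
      Real.log (2 * D) * ((((Finset.Ioc D (2 * D)) ×ˢ (Finset.range (x + h))).filter
        (fun y : ℕ × ℕ => y.1.Prime ∧ (∀ r : ℕ, r.Prime → r ∣ y.2 → z < r) ∧
          x ≤ y.1 * y.2 ∧ y.1 * y.2 < x + h)).card : ℝ) := by
  unfold FF
  rw [Finset.sum_comm, ← Finset.sum_product']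
  rw [← Finset.sum_filter]
  have h1 : ∑ y ∈ ((Finset.Ioc D (2 * D)) ×ˢ (AA z x h)).filter (fun y => y.1.Prime ∧ y.1 ∣ y.2),
      Real.log (y.1 : ℝ) ≤ ∑ y ∈ ((Finset.Ioc D (2 * D)) ×ˢ (AA z x h)).filter
        (fun y => y.1.Prime ∧ y.1 ∣ y.2), Real.log (2 * D) := by
    apply Finset.sum_le_sum
    intro y hy
    rw [Finset.mem_filter, Finset.mem_product, Finset.mem_Ioc] at hy
    have hy0 : (0 : ℝ) < y.1 := by exact_mod_cast hy.2.1.pos
    apply Real.log_le_log hy0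
    exact_mod_cast hy.1.1.2
  refine le_trans h1 ?_
  rw [Finset.sum_const, nsmul_eq_mul, mul_comm]
  by_cases hD : D = 0
  · subst hD; simp
  apply mul_le_mul_of_nonneg_left _ (by
    apply Real.log_nonneg
    have : (1 : ℝ) ≤ D := by exact_mod_cast Nat.pos_of_ne_zero hD
    linarith)
  have : (((Finset.Ioc D (2 * D)) ×ˢ (AA z x h)).filter (fun y => y.1.Prime ∧ y.1 ∣ y.2)).card ≤
      (((Finset.Ioc D (2 * D)) ×ˢ (Finset.range (x + h))).filter
        (fun y : ℕ × ℕ => y.1.Prime ∧ (∀ r : ℕ, r.Prime → r ∣ y.2 → z < r) ∧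
          x ≤ y.1 * y.2 ∧ y.1 * y.2 < x + h)).card := by
    apply Finset.card_le_card_of_injOn (fun y => (y.1, y.2 / y.1))
    · intro y hy
      rw [Finset.mem_coe, Finset.mem_filter, Finset.mem_product] at hy ⊢
      obtain ⟨⟨hy1, hy2⟩, hy3, hy4⟩ := hy
      obtain ⟨⟨a1, a2⟩, a3, -⟩ := mem_AA.mp hy2
      have e : y.1 * (y.2 / y.1) = y.2 := Nat.mul_div_cancel' hy4
      refine ⟨⟨hy1, ?_⟩, hy3, a3.div hy4, ?_, ?_⟩
      · rw [Finset.mem_range]
        exact lt_of_le_of_lt (Nat.div_le_self _ _) a2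
      · simp only [e]; exact a1
      · simp only [e]; exact a2
    · intro y hy y' hy' hyy
      rw [Finset.mem_coe, Finset.mem_filter, Finset.mem_product] at hy hy'
      simp only [Prod.mk.injEq] at hyy
      obtain ⟨e1, e2⟩ := hyy
      have a1 : y.1 * (y.2 / y.1) = y.2 := Nat.mul_div_cancel' hy.2.2
      have a2 : y'.1 * (y'.2 / y'.1) = y'.2 := Nat.mul_div_cancel' hy'.2.2
      ext
      · exact e1
      · rw [← a1, ← a2, e2, e1]
  exact_mod_cast this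

/-- combinatorial conclusion -/
theorem cheb_core (z : ℝ) (x h D I : ℕ) (T β γ M : ℝ) (hx : 1 ≤ x) (hT : T ≤ 2 ^ I * D)
    (hb : ∀ p : ℕ, p.Prime → p ≤ D →
      ((((AA z x h).filter (fun n => p ∣ n)).card : ℕ) : ℝ) ≤ β / p)
    (hd : ∀ i < I, Real.log (2 * (2 ^ i * D : ℕ)) *
      ((((Finset.Ioc (2 ^ i * D) (2 * (2 ^ i * D))) ×ˢ (Finset.range (x + h))).filter
        (fun y : ℕ × ℕ => y.1.Prime ∧ (∀ r : ℕ, r.Prime → r ∣ y.2 → z < r) ∧
          x ≤ y.1 * y.2 ∧ y.1 * y.2 < x + h)).card : ℝ) ≤ γ)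
    (hM : Real.log ((x + h : ℕ) : ℝ) ≤ M) :
    ((AA z x h).card : ℝ) * Real.log x ≤
      β * (∑ p ∈ (Finset.Ioc 0 D).filter Nat.Prime, Real.log p / p) + I * γ
      + M * (((AA z x h).filter (fun n => ∃ q : ℕ, q.Prime ∧ T ≤ q ∧ q ∣ n)).card : ℝ) := by
  have h0 : ((AA z x h).card : ℝ) * Real.log x ≤ ∑ n ∈ AA z x h, Real.log n := by
    rw [← nsmul_eq_mul, ← Finset.sum_const]
    apply Finset.sum_le_sum
    intro n hn
    apply Real.log_le_log (by exact_mod_cast hx)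
    exact_mod_cast (mem_AA.mp hn).1.1
  have h1 : ∑ n ∈ AA z x h, Real.log n ≤ ∑ n ∈ AA z x h, (FF n (Finset.Ioc 0 D)
      + ∑ i ∈ Finset.range I, FF n (Finset.Ioc (2 ^ i * D) (2 * (2 ^ i * D)))
      + (if ∃ q : ℕ, q.Prime ∧ T ≤ q ∧ q ∣ n then Real.log n else 0)) :=
    Finset.sum_le_sum fun n hn => log_le_FF z x h n D I T hx hT hn
  rw [Finset.sum_add_distrib, Finset.sum_add_distrib] at h1
  have h2 := sum_FF_small (AA z x h) D β hb
  have h3 : ∑ n ∈ AA z x h, ∑ i ∈ Finset.range I, FF n (Finset.Ioc (2 ^ i * D) (2 * (2 ^ i * D)))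
      ≤ I * γ := by
    rw [Finset.sum_comm]
    calc _ ≤ ∑ i ∈ Finset.range I, γ := by
          apply Finset.sum_le_sum
          intro i hi
          exact (sum_FF_dyadic z x h (2 ^ i * D) hx).trans (hd i (Finset.mem_range.mp hi))
      _ = I * γ := by rw [Finset.sum_const, Finset.card_range, nsmul_eq_mul]
  have h4 : ∑ n ∈ AA z x h, (if ∃ q : ℕ, q.Prime ∧ T ≤ q ∧ q ∣ n then Real.log (n : ℝ) else 0)
      ≤ M * (((AA z x h).filter (fun n => ∃ q : ℕ, q.Prime ∧ T ≤ q ∧ q ∣ n)).card : ℝ) := by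
    rw [← Finset.sum_filter, mul_comm, ← nsmul_eq_mul, ← Finset.sum_const]
    apply Finset.sum_le_sum
    intro n hn
    rw [Finset.mem_filter] at hn
    have hn1 := (mem_AA.mp hn.1).1
    refine le_trans ?_ hM
    apply Real.log_le_log
    · have : 0 < n := by omega
      exact_mod_cast this
    · exact_mod_cast hn1.2.le
  linarith

/-- multiples of `p` -/
theorem card_mult_le (z : ℝ) (x h p : ℕ) (hp : 1 ≤ p) : ∃ a l : ℕ,
    (h : ℝ) / p - 1 ≤ l ∧ (l : ℝ) ≤ (h : ℝ) / p + 1 ∧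
    ((AA z x h).filter (fun n => p ∣ n)).card ≤
      ((Finset.Ico a (a + l)).filter (fun n => ∀ r : ℕ, r.Prime → r ∣ n → z < r)).card := by
  have hp0 : (0 : ℝ) < p := by exact_mod_cast hp
  set a := ⌈(x : ℝ) / p⌉₊ with ha
  set b := ⌈((x : ℝ) + h) / p⌉₊ with hb
  have hab : a ≤ b := Nat.ceil_mono (by gcongr; linarith [Nat.cast_nonneg (α := ℝ) h])
  have ha1 : (x : ℝ) / p ≤ a := Nat.le_ceil _
  have ha2 : (a : ℝ) < (x : ℝ) / p + 1 := Nat.ceil_lt_add_one (by positivity)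
  have hb1 : ((x : ℝ) + h) / p ≤ b := Nat.le_ceil _
  have hb2 : (b : ℝ) < ((x : ℝ) + h) / p + 1 := Nat.ceil_lt_add_one (by positivity)
  have e : ((x : ℝ) + h) / p = (x : ℝ) / p + h / p := by ring
  rw [e] at hb1 hb2
  refine ⟨a, b - a, ?_, ?_, ?_⟩
  · rw [Nat.cast_sub hab]; linarith
  · rw [Nat.cast_sub hab]; linarith
  · rw [Nat.add_sub_cancel' hab]
    apply Finset.card_le_card_of_injOn (fun n => n / p)
    · intro n hn
      rw [Finset.mem_coe, Finset.mem_filter] at hn ⊢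
      obtain ⟨hn1, hn2⟩ := hn
      obtain ⟨⟨a1, a2⟩, a3, -⟩ := mem_AA.mp hn1
      refine ⟨?_, a3.div hn2⟩
      obtain ⟨m, rfl⟩ := hn2
      have e5 : p * m / p = m := Nat.mul_div_cancel_left _ hp
      simp only [e5]
      rw [Finset.mem_Ico]
      constructor
      · rw [ha, Nat.ceil_le, div_le_iff₀ hp0]
        have : (x : ℝ) ≤ ((p * m : ℕ) : ℝ) := by exact_mod_cast a1
        push_cast at this; linarith
      · rw [hb, Nat.lt_ceil, lt_div_iff₀ hp0]
        have : ((p * m : ℕ) : ℝ) < ((x + h : ℕ) : ℝ) := by exact_mod_cast a2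
        push_cast at this; linarith
    · intro n hn n' hn' hnn
      rw [Finset.mem_coe, Finset.mem_filter] at hn hn'
      simp only at hnn
      rw [← Nat.div_mul_cancel hn.2, ← Nat.div_mul_cancel hn'.2, hnn]

end Pool.Agent.Helper4.QRH
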