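import Pool.Agent.Helper4.QRH.HTwoA

/-! Module B8 of project QRH, part 2: the inequality at a fixed `x`. -/

set_option autoImplicit false

open Filter Topology
open scoped Classical

namespace Pool.Agent.Helper4.QRH

open Pool.Agent.Helper10.QRH
open Pool.Agent.Helper44 (primesUpTo)

theorem card_AA_ge (z : ℝ) (x h : ℕ) :
    ((((Finset.Ico x (x + h)).filter (fun n => ∀ r : ℕ, r.Prime → r ∣ n → z < r)).card : ℕ) : ℝ)
      - ((((Finset.Ico x (x + h)).filter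
        (fun n => ∃ p : ℕ, p.Prime ∧ z < p ∧ p ^ 2 ∣ n)).card : ℕ) : ℝ)
      ≤ ((AA z x h).card : ℝ) := by
  have hsub : (Finset.Ico x (x + h)).filter (fun n => ∀ r : ℕ, r.Prime → r ∣ n → z < r) ⊆
      AA z x h ∪ (Finset.Ico x (x + h)).filter
        (fun n => ∃ p : ℕ, p.Prime ∧ z < p ∧ p ^ 2 ∣ n) := by
    intro n hn
    rw [Finset.mem_filter] at hn
    rw [Finset.mem_union]
    by_cases hq : ∃ p : ℕ, p.Prime ∧ z < p ∧ p ^ 2 ∣ n
    · right; rw [Finset.mem_filter]; exact ⟨hn.1, hq⟩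
    · left; rw [AA, Finset.mem_filter]; exact ⟨hn.1, hn.2, hq⟩
  have h1 := (Finset.card_le_card hsub).trans (Finset.card_union_le _ _)
  have h2 : ((((Finset.Ico x (x + h)).filter (fun n => ∀ r : ℕ, r.Prime → r ∣ n → z < r)).card : ℕ) : ℝ)
      ≤ ((AA z x h).card : ℝ) + ((((Finset.Ico x (x + h)).filter
        (fun n => ∃ p : ℕ, p.Prime ∧ z < p ∧ p ^ 2 ∣ n)).card : ℕ) : ℝ) := by exact_mod_cast h1
  linarith

theorem fixed_bound (x h : ℕ) (z W K C C0 T Lx : ℝ) (D I : ℕ) (hx : 1 ≤ x) (hh : 1 ≤ h)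
    (hW : 0 < W) (hz : 128 ≤ z) (hK : 1 ≤ K) (hC : 0 < C) (hLx : Lx = Real.log x)
    (hLx0 : 0 < Lx)
    (hlow : (1 - 1 / 32) * h * W ≤
      ((((Finset.Ico x (x + h)).filter (fun n => ∀ r : ℕ, r.Prime → r ∣ n → z < r)).card : ℕ) : ℝ))
    (hsq : ((((Finset.Ico x (x + h)).filter
        (fun n => ∃ p : ℕ, p.Prime ∧ z < p ∧ p ^ 2 ∣ n)).card : ℕ) : ℝ) ≤ 1 / 32 * h * W)
    (hup : ∀ a l : ℕ, z ^ K ≤ (l : ℝ) → ((((Finset.Ico a (a + l)).filter
        (fun n => ∀ r : ℕ, r.Prime → r ∣ n → z < r)).card : ℕ) : ℝ) ≤ (1 + 1 / 32) * l * W)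
    (hD : (D : ℝ) ≤ h / z ^ (K + 1)) (hD1 : 1 ≤ D)
    (hmer : ∑ p ∈ (Finset.Ioc 0 D).filter Nat.Prime, Real.log p / p ≤ Real.log D + C0)
    (hh2 : Real.log h ≤ Lx / 2)
    (hpair : ∀ i < I, ((((Finset.Ioc (2 ^ i * D) (2 * (2 ^ i * D))) ×ˢ
        (Finset.range (x + h))).filter (fun y : ℕ × ℕ => y.1.Prime ∧
          (∀ r : ℕ, r.Prime → r ∣ y.2 → z < r) ∧
          x ≤ y.1 * y.2 ∧ y.1 * y.2 < x + h)).card : ℝ) ≤ C * h / Lx * W)
    (hlogD : ∀ i < I, Real.log (2 * (2 ^ i * D : ℕ)) ≤ Lx)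
    (hI : C * I ≤ Lx / 32) (hT : T ≤ 2 ^ I * D)
    (hM : Real.log ((x + h : ℕ) : ℝ) ≤ 11 / 10 * Lx) (hC0 : 17 / 16 * C0 ≤ Lx / 64) :
    h * W / 4 ≤ (((AA z x h).filter (fun n => ∃ q : ℕ, q.Prime ∧ T ≤ q ∧ q ∣ n)).card : ℝ) := by
  have hh0 : (0 : ℝ) < h := by exact_mod_cast hh
  have hD0 : (0 : ℝ) < D := by exact_mod_cast hD1
  have hz0 : 0 < z := by linarith
  have hzK : 1 ≤ z ^ K := Real.one_le_rpow (by linarith) (by linarith)
  have hzK1 : z ^ (K + 1) = z ^ K * z := by rw [Real.rpow_add hz0, Real.rpow_one]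
  have hzz : z ≤ z ^ (K + 1) := by rw [hzK1]; nlinarith
  have hzK10 : 0 < z ^ (K + 1) := by positivity
  have hDz : (D : ℝ) * z ^ (K + 1) ≤ h := by rwa [le_div_iff₀ hzK10] at hD
  have hA : 15 / 16 * (h * W) ≤ ((AA z x h).card : ℝ) := by
    have := card_AA_ge z x h
    linarith
  have hb : ∀ p : ℕ, p.Prime → p ≤ D →
      ((((AA z x h).filter (fun n => p ∣ n)).card : ℕ) : ℝ) ≤ 17 / 16 * (h * W) / p := by
    intro p hp hpD
    obtain ⟨a, l, h1, h2, h3⟩ := card_mult_le z x h p hp.pos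
    have hp0 : (0 : ℝ) < p := by exact_mod_cast hp.pos
    have hpD' : (p : ℝ) ≤ D := by exact_mod_cast hpD
    have h4 : z ^ (K + 1) ≤ (h : ℝ) / p := by
      rw [le_div_iff₀ hp0]
      nlinarith
    have h5 : z ^ K ≤ (l : ℝ) := by rw [hzK1] at h4; nlinarith
    have h6 := hup a l h5
    have h7 : (l : ℝ) ≤ (1 + 1 / 128) * ((h : ℝ) / p) := by linarith
    calc ((((AA z x h).filter (fun n => p ∣ n)).card : ℕ) : ℝ)
        ≤ ((((Finset.Ico a (a + l)).filter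
            (fun n => ∀ r : ℕ, r.Prime → r ∣ n → z < r)).card : ℕ) : ℝ) := by exact_mod_cast h3
      _ ≤ (1 + 1 / 32) * l * W := h6
      _ ≤ (1 + 1 / 32) * ((1 + 1 / 128) * ((h : ℝ) / p)) * W := by gcongr
      _ = (33 / 32 * (129 / 128)) * (h * W / p) := by ring
      _ ≤ 17 / 16 * (h * W / p) := by gcongr; norm_num
      _ = _ := by ring
  have hd : ∀ i < I, Real.log (2 * (2 ^ i * D : ℕ)) *
      ((((Finset.Ioc (2 ^ i * D) (2 * (2 ^ i * D))) ×ˢ (Finset.range (x + h))).filter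
        (fun y : ℕ × ℕ => y.1.Prime ∧ (∀ r : ℕ, r.Prime → r ∣ y.2 → z < r) ∧
          x ≤ y.1 * y.2 ∧ y.1 * y.2 < x + h)).card : ℝ) ≤ C * (h * W) := by
    intro i hi
    calc _ ≤ Lx * (C * h / Lx * W) := by
          apply mul_le_mul (hlogD i hi) (hpair i hi) (Nat.cast_nonneg _) hLx0.le
      _ = C * (h * W) := by field_simp
  have key := cheb_core z x h D I T (17 / 16 * (h * W)) (C * (h * W)) (11 / 10 * Lx) hx hT hb hd hM
  have hlogDh : Real.log D ≤ Lx / 2 := by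
    refine le_trans (Real.log_le_log hD0 ?_) hh2
    nlinarith
  have h8 : ∑ p ∈ (Finset.Ioc 0 D).filter Nat.Prime, Real.log p / p ≤ Lx / 2 + C0 := by linarith
  have hhW : 0 < h * W := by positivity
  have h9 := mul_le_mul_of_nonneg_left h8 (show 0 ≤ 17 / 16 * (h * W) by positivity)
  have h10 : (I : ℝ) * (C * (h * W)) ≤ Lx / 32 * (h * W) := by nlinarith
  have h11 : 15 / 16 * (h * W) * Lx ≤ ((AA z x h).card : ℝ) * Real.log x := by
    rw [← hLx]; exact mul_le_mul_of_nonneg_right hA hLx0.le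
  have h12 : 17 / 16 * (h * W) * (Lx / 2 + C0) ≤ (17 / 32 + 1 / 64) * (h * W) * Lx := by nlinarith
  set G := (((AA z x h).filter (fun n => ∃ q : ℕ, q.Prime ∧ T ≤ q ∧ q ∣ n)).card : ℝ) with hG
  have h13 : 23 / 64 * (h * W) * Lx ≤ 11 / 10 * Lx * G := by nlinarith
  have h14 : 23 / 64 * (h * W) ≤ 11 / 10 * G := by
    have : Lx * (23 / 64 * (h * W)) ≤ Lx * (11 / 10 * G) := by nlinarith
    exact le_of_mul_le_mul_left this hLx0
  linarith

/-- the good integers have the shape required in `HTwo` -/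
theorem good_shape (z T : ℝ) (x h : ℕ) (hx : 1 ≤ x) :
    (((AA z x h).filter (fun n => ∃ q : ℕ, q.Prime ∧ T ≤ q ∧ q ∣ n)).card : ℝ) ≤
      (((Finset.Ico x (x + h)).filter (fun n => ∃ q m : ℕ, q.Prime ∧ n = q * m ∧
      T ≤ q ∧ ∀ p : ℕ, p.Prime → p ∣ m → z ≤ p)).card : ℝ) := by
  have : (AA z x h).filter (fun n => ∃ q : ℕ, q.Prime ∧ T ≤ q ∧ q ∣ n) ⊆
      (Finset.Ico x (x + h)).filter (fun n => ∃ q m : ℕ, q.Prime ∧ n = q * m ∧
      T ≤ q ∧ ∀ p : ℕ, p.Prime → p ∣ m → z ≤ p) := by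
    intro n hn
    rw [Finset.mem_filter] at hn
    obtain ⟨hn1, q, hq, hTq, m, rfl⟩ := hn
    obtain ⟨a1, a2, -⟩ := mem_AA.mp hn1
    rw [Finset.mem_filter, Finset.mem_Ico]
    refine ⟨a1, q, m, hq, rfl, hTq, ?_⟩
    intro p hp hpm
    exact (a2 p hp (hpm.mul_left q)).le
  exact_mod_cast Finset.card_le_card this

end Pool.Agent.Helper4.QRH
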